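import Mathlib

open MvPolynomial

namespace Pool.Agent.Results.MP_0a8151_al.ScarfFails

section General

variable {k : Type*} [Field k] {ν : Type*} {N : ℕ}

/-- The exponent vectors of the minimal monomial generators of a monomial ideal `I`: the minimal
elements, with respect to divisibility, among the monomials lying in `I`. -/
def minGens (I : Ideal (MvPolynomial ν k)) : Set (ν →₀ ℕ) :=
  {e | Minimal (fun e : ν →₀ ℕ => monomial e (1 : k) ∈ I) e}

/-- The label of a face `s` of the Taylor simplex on `m 0, …, m (N-1)`: the exponent vector of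
the least common multiple of the monomials `m i`, `i ∈ s`. -/
noncomputable def label (m : Fin N → ν →₀ ℕ) (s : Finset (Fin N)) : ν →₀ ℕ := s.sup m

/-- The Scarf complex: all nonempty faces `s` whose label differs from the label of every other
face of the Taylor simplex. -/
def scarf (m : Fin N → ν →₀ ℕ) : Set (Finset (Fin N)) :=
  {s | s.Nonempty ∧ ∀ t : Finset (Fin N), t ≠ s → label m t ≠ label m s}

/-- The simplicial sign of the facet `s \ {x}` of `s`. -/
def sgn (s : Finset (Fin N)) (x : Fin N) : ℤ := (-1) ^ (s.filter (fun y => y < x)).card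

variable (k) in
/-- The boundary of the basis element `e_s` in the homogenized chain complex:
`∑_{x ∈ s} ± (m_s / m_{s \ x}) e_{s \ x}`. -/
noncomputable def bd (m : Fin N → ν →₀ ℕ) (s : Finset (Fin N)) :
    Finset (Fin N) →₀ MvPolynomial ν k :=
  ∑ x ∈ s, Finsupp.single (s.erase x)
    (monomial (label m s - label m (s.erase x)) ((sgn s x : ℤ) : k))

variable (k) in
/-- The homogenized differential, extended linearly. -/
noncomputable def D (m : Fin N → ν →₀ ℕ) :
    (Finset (Fin N) →₀ MvPolynomial ν k) →ₗ[MvPolynomial ν k]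
      (Finset (Fin N) →₀ MvPolynomial ν k) :=
  Finsupp.linearCombination _ (bd k m)

variable (k) in
/-- The augmentation `e_s ↦ m_s` (used only on vertices). -/
noncomputable def aug (m : Fin N → ν →₀ ℕ) :
    (Finset (Fin N) →₀ MvPolynomial ν k) →ₗ[MvPolynomial ν k] MvPolynomial ν k :=
  Finsupp.linearCombination _ (fun s => monomial (label m s) (1 : k))

variable (k) in
/-- The free module `C_i(X)` with basis the faces `e_s`, `s ∈ X`, `|s| = i + 1`. -/
noncomputable def chains (X : Set (Finset (Fin N))) (i : ℕ) :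
    Submodule (MvPolynomial ν k) (Finset (Fin N) →₀ MvPolynomial ν k) :=
  Finsupp.supported _ _ {s | s ∈ X ∧ s.card = i + 1}

/-- The labelled simplicial complex `X` on the vertices `m 0, …, m (N-1)` supports a free
resolution of `I`: the complex `⋯ → C_2(X) → C_1(X) → C_0(X) → I → 0` is exact. -/
def SupportsResolution (m : Fin N → ν →₀ ℕ) (X : Set (Finset (Fin N)))
    (I : Ideal (MvPolynomial ν k)) : Prop :=
  (chains k X 0).map (aug k m) = I ∧
  (∀ z ∈ chains k X 0, aug k m z = 0 → ∃ w ∈ chains k X 1, D k m w = z) ∧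
  ∀ i, ∀ z ∈ chains k X (i + 1), D k m z = 0 → ∃ w ∈ chains k X (i + 2), D k m w = z

end General

section Extremal

/-- The variables `x_A`, `∅ ≠ A ⊆ [q]`. -/
abbrev Var (q : ℕ) := {A : Finset (Fin q) // A.Nonempty}

/-- `ε_i = ∏_{A ∋ i} x_A`. -/
noncomputable def eps (k : Type*) [Field k] (q : ℕ) (i : Fin q) : MvPolynomial (Var q) k :=
  ∏ A ∈ Finset.univ.filter (fun A : Var q => i ∈ A.1), X A

/-- The extremal ideal `(ε_1, …, ε_q)`. -/
noncomputable def extremalIdeal (k : Type*) [Field k] (q : ℕ) :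
    Ideal (MvPolynomial (Var q) k) :=
  Ideal.span (Set.range (eps k q))

end Extremal

section Lemmas

variable {k : Type*} [Field k] {ν : Type*} {N : ℕ}

lemma sgn_erase_mul (s : Finset (Fin N)) {x y : Fin N} (hx : x ∈ s) (hy : y ∈ s) (hxy : x ≠ y) :
    sgn s x * sgn (s.erase x) y = - (sgn s y * sgn (s.erase y) x) := by
  -- reduce to `x < y`
  have key : ∀ x y : Fin N, x ∈ s → y ∈ s → x < y →
      sgn s x * sgn (s.erase x) y = - (sgn s y * sgn (s.erase y) x) := by
    intro x y hx hy hlt
    have h1 : sgn (s.erase y) x = sgn s x := by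
      unfold sgn
      congr 2
      ext z
      simp only [Finset.mem_filter, Finset.mem_erase]
      constructor
      · rintro ⟨⟨-, h⟩, h'⟩; exact ⟨h, h'⟩
      · rintro ⟨h, h'⟩; exact ⟨⟨(h'.trans hlt).ne, h⟩, h'⟩
    have h2 : sgn s y = - sgn (s.erase x) y := by
      unfold sgn
      have : s.filter (fun z => z < y) = insert x ((s.erase x).filter (fun z => z < y)) := by
        ext z
        simp only [Finset.mem_filter, Finset.mem_insert, Finset.mem_erase]
        constructor
        · rintro ⟨h, h'⟩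
          by_cases hz : z = x
          · exact Or.inl hz
          · exact Or.inr ⟨⟨hz, h⟩, h'⟩
        · rintro (rfl | ⟨⟨_, h⟩, h'⟩)
          · exact ⟨hx, hlt⟩
          · exact ⟨h, h'⟩
      rw [this, Finset.card_insert_of_notMem (by simp), pow_succ]
      ring
    rw [h1, h2]; ring
  rcases lt_or_gt_of_ne hxy with h | h
  · exact key x y hx hy h
  · have := key y x hy hx h
    rw [this]; ring

lemma label_mono (m : Fin N → ν →₀ ℕ) {s t : Finset (Fin N)} (h : s ⊆ t) :
    label m s ≤ label m t := Finset.sup_mono h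

lemma le_label (m : Fin N → ν →₀ ℕ) {s : Finset (Fin N)} {x : Fin N} (h : x ∈ s) :
    m x ≤ label m s := Finset.le_sup h

lemma D_single (m : Fin N → ν →₀ ℕ) (s : Finset (Fin N)) (p : MvPolynomial ν k) :
    D k m (Finsupp.single s p) = p • bd k m s := by
  simp [D]

lemma D_bd (m : Fin N → ν →₀ ℕ) (s : Finset (Fin N)) : D k m (bd k m s) = 0 := by
  classical
  have h1 : D k m (bd k m s) = ∑ x ∈ s, ∑ y ∈ s.erase x,
      Finsupp.single ((s.erase x).erase y)
        (monomial (label m s - label m ((s.erase x).erase y))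
          (((sgn s x * sgn (s.erase x) y : ℤ)) : k)) := by
    rw [bd, map_sum]
    refine Finset.sum_congr rfl fun x hx => ?_
    rw [D_single, bd, Finset.smul_sum]
    refine Finset.sum_congr rfl fun y hy => ?_
    rw [Finsupp.smul_single, smul_eq_mul, monomial_mul]
    have a1 := label_mono m (Finset.erase_subset x s)
    have a2 := label_mono m (Finset.erase_subset y (s.erase x))
    rw [tsub_add_tsub_cancel a1 a2]
    push_cast
    rfl
  rw [h1, Finset.sum_sigma']
  refine Finset.sum_involution (fun p _ => ⟨p.2, p.1⟩) ?_ ?_ ?_ ?_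
  · rintro ⟨x, y⟩ h
    simp only [Finset.mem_sigma, Finset.mem_erase] at h
    obtain ⟨hx, hyx, hy⟩ := h
    simp only
    rw [Finset.erase_right_comm (a := y) (b := x), ← Finsupp.single_add, ← map_add, ← Int.cast_add,
      sgn_erase_mul s hx hy (Ne.symm hyx)]
    simp
  · rintro ⟨x, y⟩ h _ heq
    simp only [Finset.mem_sigma, Finset.mem_erase] at h
    have := congrArg Sigma.fst heq
    exact h.2.1 this
  · rintro ⟨x, y⟩ h
    simp only [Finset.mem_sigma, Finset.mem_erase] at h ⊢
    exact ⟨h.2.2, Ne.symm h.2.1, h.1⟩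
  · rintro ⟨x, y⟩ h
    rfl


lemma bd_map (m : Fin N → ν →₀ ℕ) (φ : Fin 5 ↪ Fin N) (J : Finset (Fin 5)) :
    bd k m (J.map φ) = ∑ v ∈ J, Finsupp.single ((J.erase v).map φ)
      (monomial (label m (J.map φ) - label m ((J.erase v).map φ))
        ((sgn (J.map φ) (φ v) : ℤ) : k)) := by
  rw [bd, Finset.sum_map]
  refine Finset.sum_congr rfl fun v _ => ?_
  rw [Finset.map_erase]

lemma sgn_mul_self (s : Finset (Fin N)) (x : Fin N) : sgn s x * sgn s x = 1 := by
  unfold sgn
  rw [← pow_add, ← two_mul, pow_mul]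
  simp

lemma sgn_ne (s : Finset (Fin N)) (x : Fin N) : ((sgn s x : ℤ) : k) ≠ 0 := by
  intro h
  have := congrArg (fun a : ℤ => (a : k)) (sgn_mul_self s x)
  simp only [Int.cast_mul, h, mul_zero, Int.cast_one] at this
  exact zero_ne_one this

end Lemmas

section Model

/-- The five exponent vectors of the counterexample, for `q = 6`, `r = 5`. -/
def P : Fin 5 → Fin 6 → ℕ :=
  ![![3,0,0,1,1,0], ![2,1,0,1,1,0], ![2,0,1,1,1,0], ![1,1,1,1,1,0], ![0,2,2,0,0,1]]

/-- Partial sums of `P v`. -/
def H (v : Fin 5) (b : Fin 6 → Bool) : ℕ := ∑ j, if b j then P v j else 0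

/-- `P v` divides the least common multiple of the `P u`, `u ∈ J`. -/
def Leb (v : Fin 5) (J : Finset (Fin 5)) : Prop := ∀ b : Fin 6 → Bool, ∃ u ∈ J, H v b ≤ H u b

instance (v : Fin 5) (J : Finset (Fin 5)) : Decidable (Leb v J) := by
  unfold Leb; infer_instance

/-- A decidable certificate that `J` is a Scarf face inside the model. -/
def Good (J : Finset (Fin 5)) : Prop :=
  (∀ v, v ∉ J → ¬ Leb v J) ∧ ∀ v, v ∈ J → ¬ Leb v (J.erase v)

instance (J : Finset (Fin 5)) : Decidable (Good J) := by unfold Good; infer_instance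

lemma good012 : Good {0,1,2} := by decide
lemma good014 : Good {0,1,4} := by decide
lemma good024 : Good {0,2,4} := by decide
lemma good123 : Good {1,2,3} := by decide
lemma good134 : Good {1,3,4} := by decide
lemma good234 : Good {2,3,4} := by decide
lemma leb3 : Leb 3 {1,2,4} := by decide
lemma leb3' : Leb 3 {0,1,2,4} := by decide
lemma leb1 : Leb 1 {0,2,3} := by decide

variable {k : Type*} [Field k] {ν : Type*} {N : ℕ}

/-- The hypotheses relating the labelled simplex to the model. -/
structure Modelled (m : Fin N → ν →₀ ℕ) (φ : Fin 5 ↪ Fin N) : Prop where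
  closed : ∀ x, m x ≤ label m (Finset.univ.map φ) → ∃ v, φ v = x
  le_iff : ∀ v (J : Finset (Fin 5)), J.Nonempty → (m (φ v) ≤ label m (J.map φ) ↔ Leb v J)

lemma scarf_of_good {m : Fin N → ν →₀ ℕ} {φ : Fin 5 ↪ Fin N} (h : Modelled m φ)
    {J : Finset (Fin 5)} (hJ : 2 ≤ J.card) (hg : Good J) : J.map φ ∈ scarf m := by
  classical
  have hJn : J.Nonempty := Finset.card_pos.mp (by omega)
  refine ⟨by simpa using hJn, fun t ht hl => ht ?_⟩
  have hsub : t ⊆ J.map φ := by
    intro x hx
    have h1 : m x ≤ label m (J.map φ) := hl ▸ le_label m hx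
    obtain ⟨v, rfl⟩ := h.closed x
      (h1.trans (label_mono m (Finset.map_subset_map.mpr (Finset.subset_univ J))))
    by_contra hv
    have hv' : v ∉ J := fun hh => hv (Finset.mem_map_of_mem φ hh)
    exact hg.1 v hv' ((h.le_iff v J hJn).mp h1)
  refine Finset.Subset.antisymm hsub ?_
  intro x hx
  obtain ⟨v, hv, rfl⟩ := Finset.mem_map.mp hx
  by_contra hvt
  have hsub' : t ⊆ (J.erase v).map φ := by
    intro y hy
    obtain ⟨u, hu, rfl⟩ := Finset.mem_map.mp (hsub hy)
    refine Finset.mem_map_of_mem φ (Finset.mem_erase.mpr ⟨?_, hu⟩)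
    rintro rfl
    exact hvt hy
  have hne : (J.erase v).Nonempty := by
    rw [← Finset.card_pos, Finset.card_erase_of_mem hv]; omega
  refine hg.2 v hv ((h.le_iff v (J.erase v) hne).mp ?_)
  calc m (φ v) ≤ label m (J.map φ) := le_label m hx
    _ = label m t := hl.symm
    _ ≤ _ := label_mono m hsub'

lemma not_scarf_of_leb {m : Fin N → ν →₀ ℕ} {φ : Fin 5 ↪ Fin N} (h : Modelled m φ)
    {J : Finset (Fin 5)} {v : Fin 5} (hne : J.Nonempty) (hv : v ∉ J) (hl : Leb v J) :
    J.map φ ∉ scarf m ∧ (insert v J).map φ ∉ scarf m ∧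
      label m ((insert v J).map φ) = label m (J.map φ) := by
  classical
  have hle := (h.le_iff v J hne).mpr hl
  have hlab : label m ((insert v J).map φ) = label m (J.map φ) := by
    rw [Finset.map_insert, label, Finset.sup_insert]
    exact sup_eq_right.mpr hle
  have hne' : J.map φ ≠ (insert v J).map φ := by
    intro hh
    have := Finset.map_injective φ hh
    exact hv (this ▸ Finset.mem_insert_self v J)
  refine ⟨fun hs => ?_, fun hs => ?_, hlab⟩
  · exact hs.2 _ hne'.symm hlab
  · exact hs.2 _ hne' hlab.symm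

theorem not_supports_of_modelled {m : Fin N → ν →₀ ℕ} {φ : Fin 5 ↪ Fin N}
    (h : Modelled m φ) (I : Ideal (MvPolynomial ν k)) :
    ¬ SupportsResolution m (scarf m) I := by
  classical
  rintro ⟨-, -, hex⟩
  set F : Finset (Fin 5) → Finset (Fin N) := fun J => J.map φ with hF
  set M : ν →₀ ℕ := label m (F {0,1,2,4}) with hM
  -- the label of the whole configuration
  have hMuniv : label m (F Finset.univ) = M := by
    have := (not_scarf_of_leb h (J := {0,1,2,4}) (v := 3) (by decide) (by decide) leb3').2.2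
    have e : (insert (3 : Fin 5) ({0,1,2,4} : Finset (Fin 5))) = Finset.univ := by decide
    rw [e] at this
    exact this
  have hM1 : label m (F {1,2,3,4}) ≤ M := by
    rw [← hMuniv]
    exact label_mono m (Finset.map_subset_map.mpr (Finset.subset_univ _))
  have hlab : label m (F {1,2,3,4}) = label m (F {1,2,4}) := by
    have := (not_scarf_of_leb h (J := {1,2,4}) (v := 3) (by decide) (by decide) leb3).2.2
    have e : (insert (3 : Fin 5) ({1,2,4} : Finset (Fin 5))) = {1,2,3,4} := by decide
    rw [e] at this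
    exact this
  let c : ℤ := - (sgn (F {0,1,2,4}) (φ 0) * sgn (F {1,2,3,4}) (φ 3))
  let z : Finset (Fin N) →₀ MvPolynomial ν k :=
    bd k m (F {0,1,2,4}) + (monomial (M - label m (F {1,2,3,4})) ((c : ℤ) : k)) •
      bd k m (F {1,2,3,4})
  have hDz : D k m z = 0 := by
    simp only [z, map_add, map_smul, D_bd, smul_zero, add_zero]
  -- explicit expansion
  have e0124 : ∀ f : Fin 5 → (Finset (Fin N) →₀ MvPolynomial ν k),
      ∑ v ∈ ({0,1,2,4} : Finset (Fin 5)), f v = f 0 + f 1 + f 2 + f 4 := by
    intro f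
    rw [Finset.sum_insert (by decide), Finset.sum_insert (by decide),
      Finset.sum_insert (by decide), Finset.sum_singleton]
    abel
  have e1234 : ∀ f : Fin 5 → (Finset (Fin N) →₀ MvPolynomial ν k),
      ∑ v ∈ ({1,2,3,4} : Finset (Fin 5)), f v = f 1 + f 2 + f 3 + f 4 := by
    intro f
    rw [Finset.sum_insert (by decide), Finset.sum_insert (by decide),
      Finset.sum_insert (by decide), Finset.sum_singleton]
    abel
  have hb1 : bd k m (F {0,1,2,4}) =
      Finsupp.single (F {1,2,4}) (monomial (M - label m (F {1,2,4}))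
        ((sgn (F {0,1,2,4}) (φ 0) : ℤ) : k)) +
      Finsupp.single (F {0,2,4}) (monomial (M - label m (F {0,2,4}))
        ((sgn (F {0,1,2,4}) (φ 1) : ℤ) : k)) +
      Finsupp.single (F {0,1,4}) (monomial (M - label m (F {0,1,4}))
        ((sgn (F {0,1,2,4}) (φ 2) : ℤ) : k)) +
      Finsupp.single (F {0,1,2}) (monomial (M - label m (F {0,1,2}))
        ((sgn (F {0,1,2,4}) (φ 4) : ℤ) : k)) := by
    rw [hF]
    simp only
    rw [bd_map, e0124]
    have r0 : ({0,1,2,4} : Finset (Fin 5)).erase 0 = {1,2,4} := by decide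
    have r1 : ({0,1,2,4} : Finset (Fin 5)).erase 1 = {0,2,4} := by decide
    have r2 : ({0,1,2,4} : Finset (Fin 5)).erase 2 = {0,1,4} := by decide
    have r4 : ({0,1,2,4} : Finset (Fin 5)).erase 4 = {0,1,2} := by decide
    rw [r0, r1, r2, r4]
  have hb2 : bd k m (F {1,2,3,4}) =
      Finsupp.single (F {2,3,4}) (monomial (label m (F {1,2,3,4}) - label m (F {2,3,4}))
        ((sgn (F {1,2,3,4}) (φ 1) : ℤ) : k)) +
      Finsupp.single (F {1,3,4}) (monomial (label m (F {1,2,3,4}) - label m (F {1,3,4}))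
        ((sgn (F {1,2,3,4}) (φ 2) : ℤ) : k)) +
      Finsupp.single (F {1,2,4}) (monomial (label m (F {1,2,3,4}) - label m (F {1,2,4}))
        ((sgn (F {1,2,3,4}) (φ 3) : ℤ) : k)) +
      Finsupp.single (F {1,2,3}) (monomial (label m (F {1,2,3,4}) - label m (F {1,2,3}))
        ((sgn (F {1,2,3,4}) (φ 4) : ℤ) : k)) := by
    rw [hF]
    simp only
    rw [bd_map, e1234]
    have r1 : ({1,2,3,4} : Finset (Fin 5)).erase 1 = {2,3,4} := by decide
    have r2 : ({1,2,3,4} : Finset (Fin 5)).erase 2 = {1,3,4} := by decide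
    have r3 : ({1,2,3,4} : Finset (Fin 5)).erase 3 = {1,2,4} := by decide
    have r4 : ({1,2,3,4} : Finset (Fin 5)).erase 4 = {1,2,3} := by decide
    rw [r1, r2, r3, r4]
  have hcancel : Finsupp.single (F {1,2,4}) (monomial (M - label m (F {1,2,4}))
        ((sgn (F {0,1,2,4}) (φ 0) : ℤ) : k)) +
      (monomial (M - label m (F {1,2,3,4})) ((c : ℤ) : k)) •
      Finsupp.single (F {1,2,4}) (monomial (label m (F {1,2,3,4}) - label m (F {1,2,4}))
        ((sgn (F {1,2,3,4}) (φ 3) : ℤ) : k)) = 0 := by
    rw [Finsupp.smul_single, smul_eq_mul, monomial_mul, hlab, tsub_self, add_zero,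
      ← Finsupp.single_add, ← map_add, ← Int.cast_mul, ← Int.cast_add]
    have : sgn (F {0,1,2,4}) (φ 0) + c * sgn (F {1,2,3,4}) (φ 3) = 0 := by
      simp only [c]
      linear_combination (- sgn (F {0,1,2,4}) (φ 0)) * sgn_mul_self (F {1,2,3,4}) (φ 3)
    rw [this]
    simp
  have hmem : ∀ J : Finset (Fin 5), J.card = 3 → Good J → ∀ p : MvPolynomial ν k,
      Finsupp.single (F J) p ∈ chains k (scarf m) (1 + 1) := by
    intro J hJ hg p
    refine Finsupp.single_mem_supported _ _ ⟨scarf_of_good h (by omega) hg, ?_⟩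
    rw [hF, Finset.card_map, hJ]
  have hz : z ∈ chains k (scarf m) (1 + 1) := by
    have hzz : z =
        (Finsupp.single (F {0,2,4}) (monomial (M - label m (F {0,2,4}))
          ((sgn (F {0,1,2,4}) (φ 1) : ℤ) : k)) +
        Finsupp.single (F {0,1,4}) (monomial (M - label m (F {0,1,4}))
          ((sgn (F {0,1,2,4}) (φ 2) : ℤ) : k)) +
        Finsupp.single (F {0,1,2}) (monomial (M - label m (F {0,1,2}))
          ((sgn (F {0,1,2,4}) (φ 4) : ℤ) : k))) +
        (monomial (M - label m (F {1,2,3,4})) ((c : ℤ) : k)) •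
        (Finsupp.single (F {2,3,4}) (monomial (label m (F {1,2,3,4}) - label m (F {2,3,4}))
          ((sgn (F {1,2,3,4}) (φ 1) : ℤ) : k)) +
        Finsupp.single (F {1,3,4}) (monomial (label m (F {1,2,3,4}) - label m (F {1,3,4}))
          ((sgn (F {1,2,3,4}) (φ 2) : ℤ) : k)) +
        Finsupp.single (F {1,2,3}) (monomial (label m (F {1,2,3,4}) - label m (F {1,2,3}))
          ((sgn (F {1,2,3,4}) (φ 4) : ℤ) : k))) := by
      simp only [z]
      rw [hb1, hb2]
      simp only [smul_add]
      have habel : ∀ A0 A1 A2 A4 B1 B2 B3 B4 : Finset (Fin N) →₀ MvPolynomial ν k,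
          A0 + B3 = 0 → A0 + A1 + A2 + A4 + (B1 + B2 + B3 + B4) =
            A1 + A2 + A4 + (B1 + B2 + B4) := by
        intro A0 A1 A2 A4 B1 B2 B3 B4 h0
        calc A0 + A1 + A2 + A4 + (B1 + B2 + B3 + B4) =
            A1 + A2 + A4 + (B1 + B2 + B4) + (A0 + B3) := by abel
          _ = _ := by rw [h0, add_zero]
      exact habel _ _ _ _ _ _ _ _ hcancel
    rw [hzz]
    refine add_mem (add_mem (add_mem ?_ ?_) ?_) (Submodule.smul_mem _ _
      (add_mem (add_mem ?_ ?_) ?_))
    · exact hmem _ (by decide) good024 _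
    · exact hmem _ (by decide) good014 _
    · exact hmem _ (by decide) good012 _
    · exact hmem _ (by decide) good234 _
    · exact hmem _ (by decide) good134 _
    · exact hmem _ (by decide) good123 _
  obtain ⟨w, hw, hDw⟩ := hex 1 z hz hDz
  -- compare the coefficient of the face `{0,1,2}` in degree `M`
  have hFne : ∀ J J' : Finset (Fin 5), J ≠ J' → F J ≠ F J' := by
    intro J J' hne hh
    exact hne (Finset.map_injective φ hh)
  have hzc : (z (F {0,1,2})).coeff (M - label m (F {0,1,2})) =
      ((sgn (F {0,1,2,4}) (φ 4) : ℤ) : k) := by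
    simp only [z]
    rw [hb1, hb2]
    simp only [Finsupp.add_apply, Finsupp.smul_apply, smul_add]
    rw [Finsupp.single_eq_of_ne (hFne _ _ (by decide)),
      Finsupp.single_eq_of_ne (hFne _ _ (by decide)),
      Finsupp.single_eq_of_ne (hFne _ _ (by decide)),
      Finsupp.single_eq_same,
      Finsupp.single_eq_of_ne (hFne _ _ (by decide)),
      Finsupp.single_eq_of_ne (hFne _ _ (by decide)),
      Finsupp.single_eq_of_ne (hFne _ _ (by decide)),
      Finsupp.single_eq_of_ne (hFne _ _ (by decide))]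
    simp
  have hwc : (D k m w (F {0,1,2})).coeff (M - label m (F {0,1,2})) = 0 := by
    rw [D, Finsupp.linearCombination_apply, Finsupp.sum, Finsupp.finsetSum_apply,
      coeff_sum]
    refine Finset.sum_eq_zero fun s hs => ?_
    have hs' : s ∈ scarf m ∧ s.card = 3 + 1 := hw hs
    rw [Finsupp.smul_apply, smul_eq_mul, bd, Finsupp.finsetSum_apply, Finset.mul_sum,
      coeff_sum]
    refine Finset.sum_eq_zero fun x hx => ?_
    by_cases hxe : s.erase x = F {0,1,2}
    · rw [hxe, Finsupp.single_eq_same, coeff_mul_monomial']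
      split_ifs with hle
      · exfalso
        have hsM : label m s ≤ M := by
          have h1 : label m (F {0,1,2}) ≤ label m s :=
            label_mono m (hxe ▸ Finset.erase_subset x s)
          have h2 : label m (F {0,1,2}) ≤ M := by
            rw [← hMuniv]
            exact label_mono m (Finset.map_subset_map.mpr (Finset.subset_univ _))
          calc label m s = (label m s - label m (F {0,1,2})) + label m (F {0,1,2}) :=
                (tsub_add_cancel_of_le h1).symm
            _ ≤ (M - label m (F {0,1,2})) + label m (F {0,1,2}) := by gcongr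
            _ = M := tsub_add_cancel_of_le h2
        have hxM : m x ≤ label m (F Finset.univ) := by
          rw [hMuniv]; exact (le_label m hx).trans hsM
        obtain ⟨v, rfl⟩ := h.closed x hxM
        have hxs : φ v ∉ F {0,1,2} := by
          rw [← hxe]; exact Finset.notMem_erase _ _
        have hs2 : s = F (insert v {0,1,2}) := by
          rw [hF]
          simp only
          rw [Finset.map_insert]
          have : F {0,1,2} = Finset.map φ {0,1,2} := rfl
          rw [← this, ← hxe, Finset.insert_erase hx]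
        have hdec : ∀ u : Fin 5, u ∉ ({0,1,2} : Finset (Fin 5)) → u = 3 ∨ u = 4 := by decide
        have hv : v = 3 ∨ v = 4 := hdec v (fun hh => hxs (Finset.mem_map_of_mem φ hh))
        rcases hv with rfl | rfl
        · have e : (insert (3 : Fin 5) ({0,1,2} : Finset (Fin 5))) = insert 1 {0,2,3} := by
            decide
          rw [e] at hs2
          refine (not_scarf_of_leb h (J := {0,2,3}) (v := 1) (by decide) (by decide)
            leb1).2.1 ?_
          rw [← show F (insert 1 {0,2,3}) = Finset.map φ (insert 1 {0,2,3}) from rfl, ← hs2]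
          exact hs'.1
        · have e : (insert (4 : Fin 5) ({0,1,2} : Finset (Fin 5))) = {0,1,2,4} := by
            decide
          rw [e] at hs2
          refine (not_scarf_of_leb h (J := {0,1,2,4}) (v := 3) (by decide) (by decide)
            leb3').1 ?_
          rw [← show F {0,1,2,4} = Finset.map φ {0,1,2,4} from rfl, ← hs2]
          exact hs'.1
      · rfl
    · rw [Finsupp.single_eq_of_ne (Ne.symm hxe)]
      simp
  rw [hDw, hzc] at hwc
  exact sgn_ne _ _ hwc

end Model

section ExtremalLemmas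

variable {k : Type*} [Field k] {q : ℕ}

/-- The exponent vector of `ε^a = ε_1^{a_1} ⋯ ε_q^{a_q}`. -/
noncomputable def expo (a : Fin q → ℕ) : Var q →₀ ℕ :=
  Finsupp.equivFunOnFinite.symm (fun A => ∑ i ∈ A.1, a i)

lemma expo_apply (a : Fin q → ℕ) (A : Var q) : expo a A = ∑ i ∈ A.1, a i := rfl

lemma expo_add (a b : Fin q → ℕ) : expo (a + b) = expo a + expo b := by
  ext A
  simp [expo_apply, Finset.sum_add_distrib]

lemma expo_le {a b : Fin q → ℕ} (h : expo a ≤ expo b) (i : Fin q) : a i ≤ b i := by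
  have := h ⟨{i}, Finset.singleton_nonempty i⟩
  simpa [expo_apply] using this

lemma expo_injective : Function.Injective (expo : (Fin q → ℕ) → (Var q →₀ ℕ)) := by
  intro a b h
  funext i
  exact le_antisymm (expo_le h.le i) (expo_le h.ge i)

lemma eps_eq (i : Fin q) : eps k q i = monomial (expo (Pi.single i 1)) (1 : k) := by
  classical
  have h1 : eps k q i = ∏ A ∈ Finset.univ.filter (fun A : Var q => i ∈ A.1),
      monomial (Finsupp.single A 1) (1 : k) := rfl
  rw [h1]
  have h2 : ∀ s : Finset (Var q), ∏ A ∈ s, monomial (Finsupp.single A 1) (1 : k) =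
      monomial (∑ A ∈ s, Finsupp.single A 1) (1 : k) := by
    intro s
    induction s using Finset.induction_on with
    | empty => simp
    | insert a s ha ih =>
      rw [Finset.prod_insert ha, Finset.sum_insert ha, ih, monomial_mul, one_mul]
  have h3 : ∑ A ∈ Finset.univ.filter (fun A : Var q => i ∈ A.1), Finsupp.single A 1 =
      expo (Pi.single i 1) := by
    ext B
    rw [Finsupp.finsetSum_apply, expo_apply, Finset.sum_pi_single']
    simp only [Finsupp.single_apply]
    rw [Finset.sum_ite_eq']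
    simp
  rw [h2, h3]

lemma prod_eps (a : Fin q → ℕ) : ∏ i, eps k q i ^ a i = monomial (expo a) (1 : k) := by
  classical
  have h : ∀ s : Finset (Fin q), ∏ i ∈ s, eps k q i ^ a i =
      monomial (expo (fun i => if i ∈ s then a i else 0)) (1 : k) := by
    intro s
    induction s using Finset.induction_on with
    | empty =>
      have : expo (fun _ : Fin q => 0) = 0 := by ext A; simp [expo_apply]
      simp [this]
    | insert j s hj ih =>
      rw [Finset.prod_insert hj, ih, eps_eq, monomial_pow, one_pow, monomial_mul, one_mul]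
      have h4 : a j • expo (Pi.single j 1) + expo (fun i => if i ∈ s then a i else 0) =
          expo (fun i => if i ∈ insert j s then a i else 0) := by
        ext A
        simp only [Finsupp.add_apply, Finsupp.smul_apply, expo_apply, smul_eq_mul]
        rw [Finset.mul_sum, ← Finset.sum_add_distrib]
        refine Finset.sum_congr rfl fun i _ => ?_
        by_cases hij : i = j
        · subst hij
          simp [hj]
        · simp [hij]
      rw [h4]
  rw [h Finset.univ]
  simp

lemma pow_le_span (r : ℕ) : extremalIdeal k q ^ r ≤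
    Ideal.span ((fun e : Var q →₀ ℕ => monomial e (1 : k)) '' (expo '' {a | ∑ i, a i = r})) := by
  classical
  induction r with
  | zero =>
    rw [pow_zero, Ideal.one_eq_top, top_le_iff, Ideal.eq_top_iff_one]
    refine Ideal.subset_span ⟨0, ⟨0, by simp, ?_⟩, by simp⟩
    ext A; simp [expo_apply]
  | succ r ih =>
    rw [pow_succ]
    refine (Ideal.mul_mono ih le_rfl).trans ?_
    rw [extremalIdeal, Ideal.span_mul_span', Ideal.span_le]
    rintro x ⟨y, ⟨e, ⟨a, ha, rfl⟩, rfl⟩, z, ⟨i, rfl⟩, rfl⟩
    refine Ideal.subset_span ⟨expo (a + Pi.single i 1), ⟨a + Pi.single i 1, ?_, rfl⟩, ?_⟩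
    · simp only [Set.mem_ofPred_eq] at ha
      simp [Finset.sum_add_distrib, ha]
    · simp only
      rw [expo_add, eps_eq, monomial_mul, one_mul]

lemma mem_pow_iff (r : ℕ) (e : Var q →₀ ℕ) :
    monomial e (1 : k) ∈ extremalIdeal k q ^ r ↔ ∃ a : Fin q → ℕ, ∑ i, a i = r ∧ expo a ≤ e := by
  classical
  constructor
  · intro h
    have := pow_le_span r h
    rw [mem_ideal_span_monomial_image] at this
    obtain ⟨_, ⟨a, ha, rfl⟩, hle⟩ := this e (by simp)
    exact ⟨a, ha, hle⟩
  · rintro ⟨a, ha, hle⟩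
    have h1 : monomial (expo a) (1 : k) ∈ extremalIdeal k q ^ r := by
      rw [← prod_eps, ← ha, ← Finset.prod_pow_eq_pow_sum]
      have hmem : ∀ i, eps k q i ∈ extremalIdeal k q := fun i =>
        Ideal.subset_span (Set.mem_range_self i)
      exact Ideal.prod_mem_prod fun i _ => Ideal.pow_mem_pow (hmem i) _
    have h2 : monomial e (1 : k) = monomial (e - expo a) 1 * monomial (expo a) 1 := by
      rw [monomial_mul, one_mul, tsub_add_cancel_of_le hle]
    rw [h2]
    exact Ideal.mul_mem_left _ _ h1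

lemma expo_eq_of_le {a b : Fin q → ℕ} (hs : ∑ i, a i = ∑ i, b i) (h : expo a ≤ expo b) :
    a = b := by
  funext i
  have := (Finset.sum_eq_sum_iff_of_le (fun i _ => expo_le h i)).mp hs
  exact this i (Finset.mem_univ i)

theorem minGens_pow (r : ℕ) :
    minGens (extremalIdeal k q ^ r) = expo '' {a : Fin q → ℕ | ∑ i, a i = r} := by
  ext e
  simp only [minGens, Set.mem_ofPred_eq, mem_pow_iff, Set.mem_image]
  constructor
  · rintro ⟨⟨a, ha, hle⟩, hmin⟩
    exact ⟨a, ha, le_antisymm hle (hmin ⟨a, ha, le_rfl⟩ hle)⟩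
  · rintro ⟨a, ha, rfl⟩
    refine ⟨⟨a, ha, le_rfl⟩, ?_⟩
    rintro e' ⟨b, hb, hbe⟩ hle
    have : b = a := expo_eq_of_le (hb.trans ha.symm) (hbe.trans hle)
    rw [← this]
    exact hbe

end ExtremalLemmas

section Final

variable {k : Type*} [Field k] {q : ℕ} {N : ℕ}

lemma label_apply {ν : Type*} (m : Fin N → ν →₀ ℕ) (s : Finset (Fin N)) (A : ν) :
    label m s A = s.sup (fun x => m x A) := by
  classical
  unfold label
  induction s using Finset.induction_on with
  | empty => rfl
  | insert a s ha ih => rw [Finset.sup_insert, Finset.sup_insert, Finsupp.sup_apply, ih]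

lemma sum_six (hq : 6 ≤ q) (g : Fin 6 → ℕ) (A : Finset (Fin q)) :
    ∑ i ∈ A, (if h : i.val < 6 then g ⟨i.val, h⟩ else 0) =
      ∑ j : Fin 6, if Fin.castLE hq j ∈ A then g j else 0 := by
  classical
  rw [← Finset.sum_filter]
  symm
  refine Finset.sum_of_injOn (Fin.castLE hq) (Fin.castLE_injective hq).injOn ?_ ?_ ?_
  · intro j hj
    simpa using hj
  · intro i hi hni
    rw [dif_neg]
    intro h
    refine hni ⟨⟨i.val, h⟩, ?_, rfl⟩
    simpa using hi
  · intro j _
    simp

/-- The five exponent vectors in `ℕ^q`, with total degree `5 + t`. -/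
def PP (q t : ℕ) (v : Fin 5) (i : Fin q) : ℕ :=
  (if h : i.val < 6 then P v ⟨i.val, h⟩ else 0) + if i.val = 0 then t else 0

lemma sum_PP (hq : 6 ≤ q) (t : ℕ) (v : Fin 5) (A : Finset (Fin q)) :
    ∑ i ∈ A, PP q t v i = H v (fun j => decide (Fin.castLE hq j ∈ A)) +
      if Fin.castLE hq 0 ∈ A then t else 0 := by
  classical
  unfold PP
  rw [Finset.sum_add_distrib, sum_six hq]
  congr 1
  · unfold H
    refine Finset.sum_congr rfl fun j _ => ?_
    simp
  · have : ∀ i : Fin q, (i.val = 0) ↔ (i = Fin.castLE hq 0) := by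
      intro i
      constructor
      · intro h; ext; simpa using h
      · rintro rfl; simp
    simp_rw [this]
    rw [Finset.sum_ite_eq']

lemma P_inj : ∀ u v : Fin 5, (∀ j : Fin 6, P u j = P v j) → u = v := by decide

lemma H_total (v : Fin 5) : H v (fun _ => true) = 5 := by
  revert v; decide

lemma arith (t c0 c1 c2 c3 c4 c5 : ℕ) (h1 : c3 + c5 ≤ 1) (h2 : c0 + c1 + c2 + c4 ≤ 4 + t)
    (h3 : c4 + c5 ≤ 1) (h4 : c0 + c1 + c2 + c3 ≤ 4 + t) (h5 : c0 + c1 + c5 ≤ 3 + t)
    (h6 : c2 + c3 ≤ 2) (h7 : c1 + c3 ≤ 2) (h8 : c0 + c2 + c5 ≤ 3 + t)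
    (h9 : c1 + c2 + c3 + c4 + c5 ≤ 5) (h : c0 + c1 + c2 + c3 + c4 + c5 = 5 + t) :
    (c0 = 3 + t ∧ c1 = 0 ∧ c2 = 0 ∧ c3 = 1 ∧ c4 = 1 ∧ c5 = 0) ∨
    (c0 = 2 + t ∧ c1 = 1 ∧ c2 = 0 ∧ c3 = 1 ∧ c4 = 1 ∧ c5 = 0) ∨
    (c0 = 2 + t ∧ c1 = 0 ∧ c2 = 1 ∧ c3 = 1 ∧ c4 = 1 ∧ c5 = 0) ∨
    (c0 = 1 + t ∧ c1 = 1 ∧ c2 = 1 ∧ c3 = 1 ∧ c4 = 1 ∧ c5 = 0) ∨
    (c0 = 0 + t ∧ c1 = 2 ∧ c2 = 2 ∧ c3 = 0 ∧ c4 = 0 ∧ c5 = 1) := by
  obtain ⟨y, rfl⟩ : ∃ y, c0 = y + t := ⟨c0 - t, by omega⟩
  have hc5 : c5 = 0 ∨ c5 = 1 := by omega
  rcases hc5 with rfl | rfl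
  · obtain rfl : c3 = 1 := by omega
    obtain rfl : c4 = 1 := by omega
    have hc1 : c1 = 0 ∨ c1 = 1 := by omega
    have hc2 : c2 = 0 ∨ c2 = 1 := by omega
    rcases hc1 with rfl | rfl
    · rcases hc2 with rfl | rfl
      · left; omega
      · right; right; left; omega
    · rcases hc2 with rfl | rfl
      · right; left; omega
      · right; right; right; left; omega
  · obtain rfl : c3 = 0 := by omega
    obtain rfl : c4 = 0 := by omega
    right; right; right; right
    omega

lemma modelled (hq : 6 ≤ q) {r : ℕ} (hr : 5 ≤ r) (m : Fin N → Var q →₀ ℕ)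
    (hinj : Function.Injective m) (hm : Set.range m = minGens (extremalIdeal k q ^ r)) :
    ∃ φ : Fin 5 ↪ Fin N, Modelled m φ := by
  classical
  obtain ⟨t, rfl⟩ : ∃ t, r = 5 + t := ⟨r - 5, by omega⟩
  rw [minGens_pow] at hm
  have hPPsum : ∀ v, ∑ i, PP q t v i = 5 + t := by
    intro v
    rw [sum_PP hq]
    simp only [Finset.mem_univ, decide_true, if_true, H_total]
  have hex : ∀ v, ∃ x, m x = expo (PP q t v) := by
    intro v
    have : expo (PP q t v) ∈ Set.range m := by
      rw [hm]; exact ⟨_, hPPsum v, rfl⟩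
    exact this
  choose φ hφ using hex
  have hPPinj : Function.Injective (PP q t) := by
    intro u v huv
    refine P_inj u v fun j => ?_
    have := congrFun huv (Fin.castLE hq j)
    simpa [PP] using this
  have hφinj : Function.Injective φ := by
    intro u v huv
    refine hPPinj (expo_injective ?_)
    rw [← hφ, ← hφ, huv]
  refine ⟨⟨φ, hφinj⟩, ?_, ?_⟩
  · -- closedness
    intro x hx
    obtain ⟨c, hc, hcx⟩ : m x ∈ expo '' {a : Fin q → ℕ | ∑ i, a i = 5 + t} := by
      rw [← hm]; exact ⟨x, rfl⟩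
    simp only [Set.mem_ofPred_eq] at hc
    have hle : ∀ A : Var q, ∃ v, ∑ i ∈ A.1, c i ≤ ∑ i ∈ A.1, PP q t v i := by
      intro A
      have h1 := hx A
      rw [← hcx, expo_apply, label_apply, Finset.sup_map] at h1
      obtain ⟨v, -, hv⟩ := Finset.exists_mem_eq_sup Finset.univ
        Finset.univ_nonempty ((fun x => m x A) ∘ (⟨φ, hφinj⟩ : Fin 5 ↪ Fin N))
      rw [hv] at h1
      refine ⟨v, ?_⟩
      simpa [hφ, expo_apply] using h1
    have hzero : ∀ i : Fin q, ¬ i.val < 6 → c i = 0 := by
      intro i hi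
      obtain ⟨v, hv⟩ := hle ⟨{i}, Finset.singleton_nonempty i⟩
      have h0 : i.val ≠ 0 := by omega
      simpa [PP, hi, h0] using hv
    have hcdef : ∀ i : Fin q, c i =
        (if h : i.val < 6 then (fun j : Fin 6 => c (Fin.castLE hq j)) ⟨i.val, h⟩ else 0) := by
      intro i
      split_ifs with h
      · rfl
      · exact hzero i h
    have hsumA : ∀ A : Finset (Fin q), ∑ i ∈ A, c i =
        ∑ j : Fin 6, if Fin.castLE hq j ∈ A then c (Fin.castLE hq j) else 0 := by
      intro A
      rw [← sum_six hq (fun j : Fin 6 => c (Fin.castLE hq j))]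
      exact Finset.sum_congr rfl fun i _ => hcdef i
    have htot : ∑ j : Fin 6, c (Fin.castLE hq j) = 5 + t := by
      rw [← hc, hsumA Finset.univ]
      simp
    -- the constraints
    have hcons : ∀ (b : Fin 6 → Bool) (B : ℕ), (∃ j, b j = true) → (∀ v, H v b ≤ B) →
        (∑ j : Fin 6, if b j = true then c (Fin.castLE hq j) else 0) ≤
          B + if b 0 = true then t else 0 := by
      intro b B hb hB
      let A : Finset (Fin q) := (Finset.univ.filter (fun j => b j = true)).map
        ⟨Fin.castLE hq, Fin.castLE_injective hq⟩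
      have hA : ∀ j, Fin.castLE hq j ∈ A ↔ b j = true := by
        intro j
        simp only [A, Finset.mem_map, Finset.mem_filter, Finset.mem_univ, true_and,
          Function.Embedding.coeFn_mk]
        constructor
        · rintro ⟨a, ha, hja⟩
          rwa [← Fin.castLE_injective hq hja]
        · intro h
          exact ⟨j, h, rfl⟩
      have hAne : A.Nonempty := by
        obtain ⟨j, hj⟩ := hb
        exact ⟨_, (hA j).mpr hj⟩
      obtain ⟨v, hv⟩ := hle ⟨A, hAne⟩
      simp only at hv
      rw [hsumA A, sum_PP hq] at hv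
      simp only [hA] at hv
      have : (fun j => decide (b j = true)) = b := by funext j; simp
      rw [this] at hv
      exact hv.trans (Nat.add_le_add_right (hB v) _)
    have c1 := hcons ![false, false, false, true, false, true] 1 ⟨3, rfl⟩ (by decide)
    have c2 := hcons ![true, true, true, false, true, false] 4 ⟨0, rfl⟩ (by decide)
    have c3 := hcons ![false, false, false, false, true, true] 1 ⟨4, rfl⟩ (by decide)
    have c4 := hcons ![true, true, true, true, false, false] 4 ⟨0, rfl⟩ (by decide)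
    have c5 := hcons ![true, true, false, false, false, true] 3 ⟨0, rfl⟩ (by decide)
    have c6 := hcons ![false, false, true, true, false, false] 2 ⟨2, rfl⟩ (by decide)
    have c7 := hcons ![false, true, false, true, false, false] 2 ⟨1, rfl⟩ (by decide)
    have c8 := hcons ![true, false, true, false, false, true] 3 ⟨0, rfl⟩ (by decide)
    have c9 := hcons ![false, true, true, true, true, true] 5 ⟨1, rfl⟩ (by decide)
    have hfin : ∀ v, (∀ j : Fin 6, c (Fin.castLE hq j) = P v j + if j.val = 0 then t else 0) →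
        φ v = x := by
      intro v hv
      apply hinj
      rw [hφ, ← hcx]
      congr 1
      funext i
      by_cases hi : i.val < 6
      · have := hv ⟨i.val, hi⟩
        have e : Fin.castLE hq ⟨i.val, hi⟩ = i := rfl
        rw [e] at this
        rw [this]
        simp [PP, hi]
      · rw [hzero i hi]
        have h0 : i.val ≠ 0 := by omega
        simp [PP, hi, h0]
    simp [Fin.sum_univ_six] at c1 c2 c3 c4 c5 c6 c7 c8 c9 htot
    have key :
        (c (Fin.castLE hq 0) = 3 + t ∧ c (Fin.castLE hq 1) = 0 ∧ c (Fin.castLE hq 2) = 0 ∧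
          c (Fin.castLE hq 3) = 1 ∧ c (Fin.castLE hq 4) = 1 ∧ c (Fin.castLE hq 5) = 0) ∨
        (c (Fin.castLE hq 0) = 2 + t ∧ c (Fin.castLE hq 1) = 1 ∧ c (Fin.castLE hq 2) = 0 ∧
          c (Fin.castLE hq 3) = 1 ∧ c (Fin.castLE hq 4) = 1 ∧ c (Fin.castLE hq 5) = 0) ∨
        (c (Fin.castLE hq 0) = 2 + t ∧ c (Fin.castLE hq 1) = 0 ∧ c (Fin.castLE hq 2) = 1 ∧
          c (Fin.castLE hq 3) = 1 ∧ c (Fin.castLE hq 4) = 1 ∧ c (Fin.castLE hq 5) = 0) ∨
        (c (Fin.castLE hq 0) = 1 + t ∧ c (Fin.castLE hq 1) = 1 ∧ c (Fin.castLE hq 2) = 1 ∧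
          c (Fin.castLE hq 3) = 1 ∧ c (Fin.castLE hq 4) = 1 ∧ c (Fin.castLE hq 5) = 0) ∨
        (c (Fin.castLE hq 0) = 0 + t ∧ c (Fin.castLE hq 1) = 2 ∧ c (Fin.castLE hq 2) = 2 ∧
          c (Fin.castLE hq 3) = 0 ∧ c (Fin.castLE hq 4) = 0 ∧ c (Fin.castLE hq 5) = 1) :=
      arith _ _ _ _ _ _ _ c1 c2 c3 c4 c5 c6 c7 c8 c9 htot
    rcases key with ⟨h0, h1, h2, h3, h4, h5⟩ | ⟨h0, h1, h2, h3, h4, h5⟩ |
      ⟨h0, h1, h2, h3, h4, h5⟩ | ⟨h0, h1, h2, h3, h4, h5⟩ | ⟨h0, h1, h2, h3, h4, h5⟩
    · refine ⟨0, hfin 0 fun j => ?_⟩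
      fin_cases j
      exacts [h0, h1, h2, h3, h4, h5]
    · refine ⟨1, hfin 1 fun j => ?_⟩
      fin_cases j
      exacts [h0, h1, h2, h3, h4, h5]
    · refine ⟨2, hfin 2 fun j => ?_⟩
      fin_cases j
      exacts [h0, h1, h2, h3, h4, h5]
    · refine ⟨3, hfin 3 fun j => ?_⟩
      fin_cases j
      exacts [h0, h1, h2, h3, h4, h5]
    · refine ⟨4, hfin 4 fun j => ?_⟩
      fin_cases j
      exacts [h0, h1, h2, h3, h4, h5]
  · -- divisibility is governed by the model
    intro v J hJ
    have hlab : ∀ A : Var q, label m (J.map ⟨φ, hφinj⟩) A =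
        J.sup (fun u => ∑ i ∈ A.1, PP q t u i) := by
      intro A
      rw [label_apply, Finset.sup_map]
      refine Finset.sup_congr rfl fun u _ => ?_
      simp [hφ, expo_apply]
    have hval : ∀ (u : Fin 5) (A : Finset (Fin q)) , ∑ i ∈ A, PP q t u i =
        H u (fun j => decide (Fin.castLE hq j ∈ A)) + if Fin.castLE hq 0 ∈ A then t else 0 :=
      fun u A => sum_PP hq t u A
    constructor
    · intro h b
      by_cases hb : ∃ j, b j = true
      · let A : Finset (Fin q) := (Finset.univ.filter (fun j => b j = true)).map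
          ⟨Fin.castLE hq, Fin.castLE_injective hq⟩
        have hA : ∀ j, Fin.castLE hq j ∈ A ↔ b j = true := by
          intro j
          simp only [A, Finset.mem_map, Finset.mem_filter, Finset.mem_univ, true_and,
            Function.Embedding.coeFn_mk]
          constructor
          · rintro ⟨a, ha, hja⟩
            rwa [← Fin.castLE_injective hq hja]
          · intro h
            exact ⟨j, h, rfl⟩
        have hAne : A.Nonempty := by
          obtain ⟨j, hj⟩ := hb
          exact ⟨_, (hA j).mpr hj⟩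
        have h1 := h ⟨A, hAne⟩
        rw [hlab] at h1
        obtain ⟨u, hu, hu2⟩ := Finset.exists_mem_eq_sup J hJ
          (fun u => ∑ i ∈ A, PP q t u i)
        simp only at h1
        rw [hu2] at h1
        have h2 : m (φ v) ⟨A, hAne⟩ = ∑ i ∈ A, PP q t v i := by rw [hφ, expo_apply]
        have h3 : ∑ i ∈ A, PP q t v i ≤ ∑ i ∈ A, PP q t u i := h2 ▸ h1
        rw [hval, hval] at h3
        simp only [hA] at h3
        have hbb : (fun j => decide (b j = true)) = b := by funext j; simp
        rw [hbb] at h3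
        exact ⟨u, hu, Nat.le_of_add_le_add_right h3⟩
      · obtain ⟨u, hu⟩ := hJ
        refine ⟨u, hu, ?_⟩
        have : ∀ j, b j = false := by
          intro j
          by_contra hj
          exact hb ⟨j, by simpa using hj⟩
        simp [H, this]
    · intro h A
      rw [hlab]
      obtain ⟨u, hu, hu2⟩ := h (fun j => decide (Fin.castLE hq j ∈ A.1))
      have h2 : m (φ v) A = ∑ i ∈ A.1, PP q t v i := by rw [hφ, expo_apply]
      calc m (φ v) A = ∑ i ∈ A.1, PP q t v i := h2
        _ ≤ ∑ i ∈ A.1, PP q t u i := by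
            rw [hval, hval]; exact Nat.add_le_add_right hu2 _
        _ ≤ _ := Finset.le_sup (f := fun u => ∑ i ∈ A.1, PP q t u i) hu

end Final

/-- Sanity check (not used): the Scarf complex is closed under passing to nonempty subsets. -/
theorem scarf_down_closed {ν : Type*} {N : ℕ} (m : Fin N → ν →₀ ℕ) {s t : Finset (Fin N)}
    (hs : s ∈ scarf m) (ht : t.Nonempty) (hts : t ⊆ s) : t ∈ scarf m := by
  classical
  refine ⟨ht, fun u hut hl => hut ?_⟩
  have h1 : label m (u ∪ (s \ t)) = label m s := by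
    have e : s = t ∪ (s \ t) := (Finset.union_sdiff_of_subset hts).symm
    conv_rhs => rw [e]
    unfold label at hl ⊢
    rw [Finset.sup_union, Finset.sup_union, hl]
  have h2 : u ∪ (s \ t) = s := by
    by_contra hne
    exact hs.2 _ hne h1
  have hus : u ⊆ s := by rw [← h2]; exact Finset.subset_union_left
  have h3 : label m (t ∪ (s \ u)) = label m s := by
    have e : s = u ∪ (s \ u) := (Finset.union_sdiff_of_subset hus).symm
    conv_rhs => rw [e]
    unfold label at hl ⊢
    rw [Finset.sup_union, Finset.sup_union, hl]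
  have h4 : t ∪ (s \ u) = s := by
    by_contra hne
    exact hs.2 _ hne h3
  refine Finset.Subset.antisymm (fun x hx => ?_) (fun x hx => ?_)
  · have hxs : x ∈ t ∪ (s \ u) := by rw [h4]; exact hus hx
    rcases Finset.mem_union.mp hxs with h | h
    · exact h
    · exact absurd hx (Finset.mem_sdiff.mp h).2
  · have hxs : x ∈ u ∪ (s \ t) := by rw [h2]; exact hts hx
    rcases Finset.mem_union.mp hxs with h | h
    · exact h
    · exact absurd hx (Finset.mem_sdiff.mp h).2

/-- The minimal generators of `𝓔_q^r` can be enumerated. -/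
theorem exists_enumeration (k : Type*) [Field k] (q r : ℕ) :
    ∃ (N : ℕ) (m : Fin N → Var q →₀ ℕ), Function.Injective m ∧
      Set.range m = minGens (extremalIdeal k q ^ r) := by
  classical
  have hfin : (minGens (extremalIdeal k q ^ r)).Finite := by
    rw [minGens_pow]
    refine Set.Finite.image _ ((Set.finite_Iic (fun _ : Fin q => r)).subset ?_)
    intro a ha i
    have ha' : ∑ i, a i = r := ha
    rw [← ha']
    exact Finset.single_le_sum (fun j _ => Nat.zero_le (a j)) (Finset.mem_univ i)
  refine ⟨_, fun i => (hfin.toFinset.equivFin.symm i).1, ?_, ?_⟩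
  · intro i j h
    exact hfin.toFinset.equivFin.symm.injective (Subtype.ext h)
  · ext e
    simp only [Set.mem_range]
    constructor
    · rintro ⟨i, rfl⟩
      exact hfin.mem_toFinset.mp (hfin.toFinset.equivFin.symm i).2
    · intro he
      exact ⟨hfin.toFinset.equivFin ⟨e, hfin.mem_toFinset.mpr he⟩, by simp⟩

/-- For every field `k` and all `q ≥ 6`, `r ≥ 5`: the minimal monomial generators of `𝓔_q^r`
can be enumerated as `m 0, …, m (N - 1)`, and for every such enumeration the Scarf complex
does not support a free resolution of `𝓔_q^r`. -/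
theorem result (k : Type*) [Field k] (q r : ℕ) (hq : 6 ≤ q) (hr : 5 ≤ r) :
    (∃ (N : ℕ) (m : Fin N → Var q →₀ ℕ), Function.Injective m ∧
      Set.range m = minGens (extremalIdeal k q ^ r)) ∧
    ∀ (N : ℕ) (m : Fin N → Var q →₀ ℕ), Function.Injective m →
      Set.range m = minGens (extremalIdeal k q ^ r) →
      ¬ SupportsResolution m (scarf m) (extremalIdeal k q ^ r) := by
  refine ⟨exists_enumeration k q r, fun N m hinj hm => ?_⟩
  obtain ⟨φ, hφ⟩ := modelled hq hr m hinj hm
  exact not_supports_of_modelled hφ _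

end Pool.Agent.Results.MP_0a8151_al.ScarfFails
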